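import Pool.Agent.Work.MP_8a95ee_gt.CP.Main

/-!
# Gromov's question for closed convex projective manifolds and closed affine manifolds

Let `M` be a closed oriented real projective manifold of dimension `n = m + 1` whose developing
image lies in an affine chart; in particular `M` may be any closed oriented affine manifold or any
closed oriented convex projective manifold `Ω/Γ`, `Γ` a discrete group of projective
transformations that acts freely and cocompactly on a properly convex open set `Ω`.
`M` is given by a straight triangulation `K` of a covering space of `M` with covering group `G`, the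
holonomy representation `ρ` of `G` and the developing map, which is given by vectors `p v` of
`ℝ ^ (n + 1)` that represent the images of the vertices `v` (`IsProjTri`); `Mfd G K` is the quotient
of the geometric realisation of `K` by `G`, `fundCycle` the fundamental cycle and `eulerChar` the
alternating sum of the numbers of orbits of simplices.

Then the simplicial volume of `M` is at least the absolute value of the Euler characteristic of
`M`.  More generally, the l1-norm of every cycle `z` of every space `Y` which is mapped to a
cycle homologous to `lam` times the fundamental cycle is at least `|lam|` times the absolute value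
of the Euler characteristic.  In particular the Euler characteristic is zero if the simplicial
volume is zero.
-/

set_option autoImplicit false

namespace Pool.Agent.Results.MP_8a95ee_gt.ConvexProjective

open MP8a95ee MP8a95ee.CP

theorem result (m : ℕ) (V G : Type) [Group G] [MulAction G V]
    (K : Set (Finset V)) (R : Finset (Finset V))
    (ρ : G →* Matrix (Fin (m + 2)) (Fin (m + 2)) ℝ) (p : V → Fin (m + 2) → ℝ)
    (_ : IsProjTri (m + 1) K R ρ p) :
    bd (fundCycle G (m + 1) K R p) = 0 ∧
    (∀ (Y : Type) [TopologicalSpace Y] (f : C(Y, Mfd G K)) (lam : ℝ)
      (z : SChain Y (m + 1)) (w : SChain (Mfd G K) (m + 2)),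
      push f z = lam • fundCycle G (m + 1) K R p + bd w →
      |lam| * |(eulerChar R : ℝ)| ≤ l1 z) ∧
    ((∀ ε : ℝ, 0 < ε → ∃ b : SChain (Mfd G K) (m + 2),
      l1 (fundCycle G (m + 1) K R p + bd b) < ε) → eulerChar R = 0) := by
  rename_i H
  obtain ⟨h1, h2⟩ := H.main
  refine ⟨h1, h2, fun hv => ?_⟩
  by_contra hne
  have hpos : 0 < |(eulerChar R : ℝ)| := abs_pos.2 (Int.cast_ne_zero.2 hne)
  obtain ⟨b, hb⟩ := hv _ hpos
  have h3 := h2 _ (ContinuousMap.id _) 1 (fundCycle G (m + 1) K R p + bd b) b (by
    rw [one_smul]
    exact Finsupp.mapDomain_id)
  rw [abs_one, one_mul] at h3
  exact absurd hb (not_lt.2 h3)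

end Pool.Agent.Results.MP_8a95ee_gt.ConvexProjective
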