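import Pool.Agent.Work.MP_8a95ee_gt.Fg.All

/-!
# Gromov's question for fibre bundles over nonpositively curved cubulated manifolds

Let `X` be a locally finite CAT(0) cube complex, given by its 1-skeleton, a median graph with
vertex set `ℕ`, whose vertex links are real homology spheres of dimension `m`; let `Γ` be a group
of automorphisms acting freely on `space X` and let the finite set `V` contain exactly one vertex
of every orbit (`IsDeck X Γ V`).  So the quotient `M` of `space X` by `Γ` is a closed aspherical
real homology manifold of dimension `n = m + 1` with a nonpositively curved cubulation.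

Let `E` be a space with a map to `M`, given by the pull-back `π : E' → E` of the universal
covering `space X → M`, a regular covering with group `Γ` (`IsReg`); let `ρ` be any `Γ`-equivariant
function from `E'` to the set of the vertices of `X`, for example a nearest vertex of the image in
`space X`.  Let `z` be a singular chain of `E'` of dimension `n + b`, `b ≥ 1`, whose image
`push π z` in `E` is a cycle (every cycle of `E` is of this form), for example a fundamental cycle
of a closed manifold `E`.

The fibre chain `fibW X Γ ρ _ x₀ s₀ z` is the cap product of the transfer of the cycle `push π z`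
to `E'` with the cocycle `cupW X x₀ s₀` of degree `n` on the tuples of vertices of `X`: for every
simplex of `z` and every translate `g • τ` of it, the value of `cupW X x₀ s₀` on
`ρ` of its vertices `0, .., n` is multiplied with its face with the vertices `n, .., n + b`.  Here
`cupW X x₀ s₀` is the cup product of the coboundaries of the indicator functions of the `n` walls
(hyperplanes) of the `n`-dimensional cube with corner `x₀` and directions `s₀ 0, .., s₀ m`; these
walls meet in the centre of this cube, so `cupW X x₀ s₀` is dual to this point, it generates the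
cohomology with compact supports of `space X`, and the fibre chain represents the fibre over the
centre of the cube.  Finally let `r : E' → F` be any map.  If `E → M` is a fibre bundle with fibre
`F`, both closed oriented manifolds, then `E'` is the product of `space X` and `F`, and for its
projection `r` to `F` and a fundamental cycle `push π z` of `E` the chain
`push r (fibW X Γ ρ _ x₀ s₀ z)` represents the fundamental class of `F` up to sign.

The theorem: there is a constant `c > 0`, depending only on `m` and `N`, such that the l1-norm of
the class of `push π z` is at least `c * S * ν`, where `ν` is a lower bound of the l1-norm of the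
class of `push r (fibW X Γ ρ _ x₀ s₀ z)` and `S` is the sum of the absolute values of the
curvatures `∑ (-1/2) ^ |s|` (the sum over the cubes `s` with corner `x`) of the tame vertices `x` of
`M` (those which have at most `N` neighbours or whose link is a simplicial fan in `ℝ ^ n`).  So
`‖E‖ ≥ c S ‖F‖` for every fibre bundle over `M`.

The second part has no condition on the links: if the class of `push π z` has l1-seminorm zero,
then so has the class of `push r (fibW X Γ ρ _ x₀ s₀ z)`, or the curvature vanishes at all vertices
and the Euler characteristic of `M` is zero.  So Gromov's question has a positive answer for a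
fibre bundle `E` with fibre `F` over `M` if it has a positive answer for `F`: if the simplicial
volume of `E` is zero then the simplicial volume of `F` is zero, and so the Euler characteristic of
`F` is zero, or the Euler characteristic of `M` is zero, and in both cases the Euler characteristic
of `E`, which is their product, is zero.
-/

set_option autoImplicit false

namespace Pool.Agent.Results.MP_8a95ee_gt.FibreBundles

/-! ### Real singular chains and their l1-norm -/

/-- Singular `n`-simplices of `A`: continuous maps from the standard `n`-simplex to `A`. -/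
abbrev SSimplex (A : Type) [TopologicalSpace A] (n : ℕ) : Type :=
  C(stdSimplex ℝ (Fin (n + 1)), A)

/-- Real singular `n`-chains of `A`: finite real linear combinations of singular simplices. -/
abbrev SChain (A : Type) [TopologicalSpace A] (n : ℕ) : Type :=
  SSimplex A n →₀ ℝ

/-- The `i`-th face of a singular simplex: its composition with the affine embedding of the
standard simplex onto the face opposite to the `i`-th vertex. -/
noncomputable def face {A : Type} [TopologicalSpace A] {n : ℕ} (σ : SSimplex A (n + 1))
    (i : Fin (n + 2)) : SSimplex A n :=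
  σ.comp ⟨stdSimplex.map i.succAbove, stdSimplex.continuous_map _⟩

/-- The boundary of a singular chain: the alternating sum of the faces. -/
noncomputable def bd {A : Type} [TopologicalSpace A] {n : ℕ} (c : SChain A (n + 1)) :
    SChain A n :=
  c.sum fun σ a => ∑ i : Fin (n + 2), Finsupp.single (face σ i) ((-1 : ℝ) ^ (i : ℕ) * a)

/-- The l1-norm of a singular chain: the sum of the absolute values of its coefficients. -/
noncomputable def l1 {A : Type} [TopologicalSpace A] {n : ℕ} (c : SChain A n) : ℝ :=
  c.sum fun _ a => |a|

/-- The image of a singular chain under a continuous map. -/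
noncomputable def push {A B : Type} [TopologicalSpace A] [TopologicalSpace B] (f : C(A, B))
    {n : ℕ} (c : SChain A n) : SChain B n :=
  c.mapDomain fun σ => f.comp σ

/-! ### Locally finite CAT(0) cube complexes -/

/-- `X` is a median graph (the 1-skeleton of a CAT(0) cube complex): it is connected and every
three vertices have exactly one median, a vertex which is between any two of them. -/
structure IsMedianGraph (X : SimpleGraph ℕ) : Prop where
  conn : X.Connected
  med : ∀ x y z : ℕ, ∃! m : ℕ, X.dist x m + X.dist m y = X.dist x y ∧
    X.dist y m + X.dist m z = X.dist y z ∧ X.dist x m + X.dist m z = X.dist x z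

/-- Every vertex has finitely many neighbours. -/
def LocFin (X : SimpleGraph ℕ) : Prop := ∀ x, (X.neighborSet x).Finite

open Classical in
/-- The finite set of the neighbours of `x`. -/
noncomputable def nbr (X : SimpleGraph ℕ) (x : ℕ) : Finset ℕ :=
  if h : (X.neighborSet x).Finite then h.toFinset else ∅

/-- The edges from `x` to its neighbours `a` and `b` span a square. -/
def Square (X : SimpleGraph ℕ) (x a b : ℕ) : Prop := ∃ y, y ≠ x ∧ X.Adj a y ∧ X.Adj b y

open Classical in
/-- The link of `x`: its vertices are the neighbours of `x`, its faces are the sets `s` of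
neighbours which pairwise span squares with `x` (these are the directions of the cubes of the
CAT(0) cube complex with corner `x`). -/
noncomputable def link (X : SimpleGraph ℕ) (x : ℕ) : Finset (Finset ℕ) :=
  (nbr X x).powerset.filter fun s => ∀ a ∈ s, ∀ b ∈ s, a ≠ b → Square X x a b

open Classical in
/-- The corner opposite to `x` of the cube with corner `x` and directions `s`: the vertex at
distance `|s|` from `x` for which all elements of `s` are between it and `x`. -/
noncomputable def corner (X : SimpleGraph ℕ) (x : ℕ) (s : Finset ℕ) : ℕ :=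
  if h : ∃ y, X.dist x y = s.card ∧ ∀ a ∈ s, X.dist a y + 1 = X.dist x y then h.choose else x

open Classical in
/-- The point with coordinates `q` of the cube with corner `x` and directions `s`: the standard
cube `[0, 1] ^ s` is mapped to `ℝ ^ ℕ` by the map which is affine in each coordinate and which maps
the corner `T ⊆ s` of `[0, 1] ^ s` to the standard basis vector of the vertex `corner X x T`. -/
noncomputable def cubePt (X : SimpleGraph ℕ) (x : ℕ) (s : Finset ℕ) (q : ℕ → ℝ) : ℕ → ℝ := fun y =>
  ∑ T ∈ s.powerset.filter (fun T => corner X x T = y), (∏ a ∈ T, q a) * ∏ a ∈ s \ T, (1 - q a)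

/-- The topological space of the cube complex, a subspace of `ℝ ^ ℕ` with the product topology. -/
def space (X : SimpleGraph ℕ) : Set (ℕ → ℝ) :=
  {u | ∃ (x : ℕ) (s : Finset ℕ) (q : ℕ → ℝ), s ∈ link X x ∧ (∀ a, 0 ≤ q a ∧ q a ≤ 1) ∧
    u = cubePt X x s q}

/-- `Γ` is a group of automorphisms of `X` which acts freely on the space of the cube complex, and
`V` contains exactly one vertex of every `Γ`-orbit of vertices. -/
structure IsDeck (X : SimpleGraph ℕ) (Γ : Subgroup (Equiv.Perm ℕ)) (V : Finset ℕ) : Prop where
  auto : ∀ g ∈ Γ, ∀ x y, X.Adj (g x) (g y) ↔ X.Adj x y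
  free : ∀ g ∈ Γ, ∀ u ∈ space X, (∀ y, u (g y) = u y) → g = 1
  rep : ∀ x, ∃! y, y ∈ V ∧ ∃ g ∈ Γ, g x = y

/-- The vertices of the cube with corner `x` and directions `s`. -/
noncomputable def cubeSet (X : SimpleGraph ℕ) (x : ℕ) (s : Finset ℕ) : Finset ℕ :=
  s.powerset.image (corner X x)

/-- Two finite sets of vertices are equivalent if an element of `Γ` maps one to the other. -/
def orbS (Γ : Subgroup (Equiv.Perm ℕ)) : Setoid (Finset ℕ) where
  r A B := ∃ g ∈ Γ, B = A.image g
  iseqv :=
    { refl := fun A => ⟨1, Γ.one_mem, by
        ext a
        simp⟩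
      symm := fun {A B} ⟨g, hg, h⟩ => ⟨g⁻¹, Γ.inv_mem hg, by
        rw [h, Finset.image_image]
        ext a
        simp⟩
      trans := fun {A B C} ⟨g, hg, h⟩ ⟨g', hg', h'⟩ => ⟨g' * g, Γ.mul_mem hg' hg, by
        rw [h', h, Finset.image_image]
        rfl⟩ }

open Classical in
/-- The Euler characteristic of the quotient of the cube complex by `Γ`: the alternating sum of
the numbers of `Γ`-orbits of cubes of each dimension. -/
noncomputable def eulerChar (X : SimpleGraph ℕ) (Γ : Subgroup (Equiv.Perm ℕ)) (V : Finset ℕ) : ℤ :=
  ∑ c ∈ (V.sigma fun x => link X x).image (fun p => (p.2.card,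
    (Quotient.mk (orbS Γ) (cubeSet X p.1 p.2) : Quotient (orbS Γ)))), (-1 : ℤ) ^ c.1

/-! ### Conditions on finite simplicial complexes -/

/-- The vertices of a complex: the union of its faces. -/
def verts (L : Finset (Finset ℕ)) : Finset ℕ := L.biUnion id

/-- The sign of moving `a` into its place in the increasingly ordered set `t`. -/
def sg (a : ℕ) (t : Finset ℕ) : ℝ := (-1) ^ (t.filter fun b => b < a).card

/-- The boundary of a simplicial chain, written as a function on finite sets of vertices. -/
def bdS (L : Finset (Finset ℕ)) (c : Finset ℕ → ℝ) (t : Finset ℕ) : ℝ :=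
  ∑ a ∈ verts L \ t, sg a t * c (insert a t)

/-- `c` is a real simplicial chain of the link of `s` in `L`, a combination of faces of the link
with `k` vertices. -/
def LkChain (L : Finset (Finset ℕ)) (s : Finset ℕ) (k : ℕ) (c : Finset ℕ → ℝ) : Prop :=
  ∀ t, c t ≠ 0 → t ∈ L ∧ Disjoint s t ∧ s ∪ t ∈ L ∧ t.card = k

/-- Every link of `L` (`L` itself included) has the reduced real homology of a sphere of
dimension `n - 1 - |s|`. -/
def IsHSphere (L : Finset (Finset ℕ)) (n : ℕ) : Prop :=
  ∀ s ∈ L,
    (∀ k, s.card + k ≠ n → ∀ c, LkChain L s k c → bdS L c = 0 →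
      ∃ c', LkChain L s (k + 1) c' ∧ bdS L c' = c) ∧
    (∀ k, s.card + k = n → ∃ z, LkChain L s k z ∧ bdS L z = 0 ∧
      (¬ ∃ c', LkChain L s (k + 1) c' ∧ bdS L c' = z) ∧
      ∀ c, LkChain L s k c → bdS L c = 0 →
        ∃ (lam : ℝ) (c' : Finset ℕ → ℝ), LkChain L s (k + 1) c' ∧ c = lam • z + bdS L c')

/-- `L` is (combinatorially) a simplicial fan in `ℝ ^ n`: the open cones spanned by the vectors of
the faces are pairwise disjoint.  (So the vectors of a face are linearly independent: split a
relation in its positive and its negative part.) -/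
def IsFan (L : Finset (Finset ℕ)) {n : ℕ} (P : ℕ → Fin n → ℝ) : Prop :=
  ∀ s ∈ L, ∀ t ∈ L, ∀ a b : ℕ → ℝ, (∀ v ∈ s, 0 < a v) → (∀ v ∈ t, 0 < b v) →
    ∑ v ∈ s, a v • P v = ∑ v ∈ t, b v • P v → s = t

/-- The vertices which are counted: at most `N` neighbours, or the link is a simplicial fan. -/
def Tame (X : SimpleGraph ℕ) (m N x : ℕ) : Prop :=
  (nbr X x).card ≤ N ∨ ∃ P : ℕ → Fin (m + 1) → ℝ, IsFan (link X x) P

/-! ### Regular coverings and the fibre chain -/

/-- `π : A → B` is a regular covering with group `G`: a surjective covering map whose fibres are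
the orbits of the free action of `G` on `A` (by homeomorphisms). -/
structure IsReg (G : Type) [Group G] {A B : Type} [TopologicalSpace A] [TopologicalSpace B]
    [MulAction G A] (π : C(A, B)) : Prop where
  cov : IsCoveringMap π
  surj : Function.Surjective π
  orb : ∀ a a', π a = π a' ↔ ∃ g : G, g • a = a'
  free : ∀ (g : G) (a : A), g • a = a → g = 1

/-- The `i`-th vertex of the standard simplex. -/
noncomputable abbrev vtx {n : ℕ} (i : Fin (n + 1)) : stdSimplex ℝ (Fin (n + 1)) :=
  stdSimplex.vertex i

/-- The translate of a singular simplex by a group element. -/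
def actS {G : Type} [Group G] {A : Type} [TopologicalSpace A] [MulAction G A]
    [ContinuousConstSMul G A] {N : ℕ} (g : G) (τ : SSimplex A N) : SSimplex A N :=
  ⟨fun t => g • τ t, (continuous_const_smul g).comp τ.continuous⟩

/-- The last face of dimension `b` of a singular simplex of dimension `N = k + b`: the face with
the vertices `k, .., k + b`. -/
noncomputable def bkS {A : Type} [TopologicalSpace A] {k b N : ℕ} (h : N = k + b)
    (τ : SSimplex A N) : SSimplex A b :=
  τ.comp ⟨stdSimplex.map fun j : Fin (b + 1) => (⟨k + j, by omega⟩ : Fin (N + 1)),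
    stdSimplex.continuous_map _⟩

open Classical in
/-- The indicator function of the set of the vertices `y` which are closer to `a` than to `x`: one
side of the wall dual to the edge from `x` to `a`. -/
noncomputable def wall (X : SimpleGraph ℕ) (x a y : ℕ) : ℝ :=
  if X.dist a y < X.dist x y then 1 else 0

/-- The cup product of the coboundaries of the indicator functions of the `n` walls of the cube
with corner `x` and directions `s 0, .., s (n - 1)`, an `n`-cochain on the tuples of vertices. -/
noncomputable def cupW (X : SimpleGraph ℕ) {n : ℕ} (x : ℕ) (s : Fin n → ℕ)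
    (v : Fin (n + 1) → ℕ) : ℝ :=
  ∏ i : Fin n, (wall X x (s i) (v i.succ) - wall X x (s i) (v i.castSucc))

/-- The fibre over the centre of the cube with corner `x` and directions `s 0, .., s (n - 1)`: the
cap product of the transfer of `z` with the cocycle `cupW`. -/
noncomputable def fibW (X : SimpleGraph ℕ) (Γ : Subgroup (Equiv.Perm ℕ)) {A : Type}
    [TopologicalSpace A] [MulAction Γ A] [ContinuousConstSMul Γ A] (ρ : A → ℕ) {n b N : ℕ}
    (h : N = n + b) (x : ℕ) (s : Fin n → ℕ) (z : SChain A N) : SChain A b :=
  z.sum fun τ r => ∑ᶠ g : Γ, Finsupp.single (bkS h (actS g τ))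
    (r * cupW X x s fun i => g • ρ (τ (vtx ⟨i, by omega⟩)))

/-! ### The theorem -/

open scoped Classical in
theorem result (m N : ℕ) : ∃ c : ℝ, 0 < c ∧
    ∀ (X : SimpleGraph ℕ) (_ : IsMedianGraph X) (_ : LocFin X)
      (_ : ∀ x, IsHSphere (link X x) (m + 1))
      (Γ : Subgroup (Equiv.Perm ℕ)) (V : Finset ℕ) (_ : IsDeck X Γ V)
      (E' E F : Type) [TopologicalSpace E'] [TopologicalSpace E] [TopologicalSpace F]
      [MulAction Γ E'] [ContinuousConstSMul Γ E'] (π : C(E', E)) (_ : IsReg Γ π)
      (ρ : E' → ℕ) (_ : ∀ (g : Γ) (a : E'), ρ (g • a) = g • ρ a)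
      (b : ℕ) (_ : 1 ≤ b) (z : SChain E' (m + b + 1)) (_ : bd (push π z) = 0)
      (x₀ : ℕ) (s₀ : Fin (m + 1) → ℕ) (_ : Function.Injective s₀)
      (_ : Finset.univ.image s₀ ∈ link X x₀) (r : C(E', F)),
    (∀ ν : ℝ, (∀ y : SChain F (b + 1), ν ≤
        l1 (push r (fibW X Γ ρ (show m + b + 1 = (m + 1) + b by omega) x₀ s₀ z) + bd y)) →
      ∀ w : SChain E (m + b + 2),
      c * (∑ x ∈ V.filter (Tame X m N), |∑ s ∈ link X x, (-1 / 2 : ℝ) ^ s.card|) * ν ≤
        l1 (push π z + bd w)) ∧
    ((∀ ε : ℝ, 0 < ε → ∃ w : SChain E (m + b + 2), l1 (push π z + bd w) < ε) →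
      (∀ ε : ℝ, 0 < ε → ∃ y : SChain F (b + 1),
        l1 (push r (fibW X Γ ρ (show m + b + 1 = (m + 1) + b by omega) x₀ s₀ z) + bd y) < ε) ∨
      (∀ x, ∑ s ∈ link X x, (-1 / 2 : ℝ) ^ s.card = 0) ∧ eulerChar X Γ V = 0) := by
  obtain ⟨c, hc, h⟩ := MP8a95ee.Npc.allFinalG m N
  refine ⟨c, hc, ?_⟩
  intro X hX hf hS Γ V hD E' E F _ _ _ _ _ π hπ ρ hρ b _ z hz x₀ s₀ h1 h2 r
  exact h X ⟨hX.conn, hX.med⟩ hf hS Γ V ⟨hD.auto, hD.free, hD.rep⟩ E' E F π
    ⟨hπ.cov, hπ.surj, hπ.orb, hπ.free⟩ ρ hρ b z hz x₀ s₀ h1 h2 r

end Pool.Agent.Results.MP_8a95ee_gt.FibreBundles
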