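import Pool.Agent.Work.MP_8a95ee_gt.Rk.All

/-!
# Gromov's question for all manifolds of the reflection trick of Davis

Let `K` be a finite simplicial complex and `V` a nonempty set of vertices of `K`, such that the
full subcomplex `L` on `V` is flag and `(K, L)` is a compact real homology manifold with boundary of
even dimension `n = m + 1 ≥ 4`, with orientation `c` and boundary orientation `o`.  The reflection
trick of Davis glues `2 ^ |V|` copies of `K` along the dual cells of the vertices of `L` to a closed
manifold `M = Mf K V`, with fundamental cycle `fundCh K V c`; if `K` is aspherical so is `M`.  The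
only property of aspherical `K` which is used: `K` has a regular covering (the universal one) with
vanishing reduced real homology.

* If the fundamental cycle has `l1`-seminorm zero, then `χ(M) = 0`.
* If `χ(M) ≠ 0`, there is `C > 0` with `C * |lam| ≤ l1 z` for every continuous map `f : X → M` and
  every cycle `z` of `X` which is mapped to `lam` times the fundamental class.
-/

set_option autoImplicit false

namespace Pool.Agent.Results.MP_8a95ee_gt.ReflectionVanishing

open MP8a95ee MP8a95ee.Ref MP8a95ee.Rk

/-- Vanishing simplicial volume implies vanishing Euler characteristic for all closed manifolds of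
even dimension at least four given by the reflection trick of Davis over a compact homology manifold
with a real acyclic regular covering. -/
theorem result (m : ℕ) (hm : 3 ≤ m) (hodd : Odd m) (K : Finset (Finset ℕ)) (hK : IsCx K)
    (V : Finset ℕ) (hV : V.Nonempty) (hVK : V ⊆ verts K) (hL : IsFlag (sub K V))
    (hM : IsHMfdB K V (m + 1)) (o : (Fin (m + 1) → ℕ) → ℤ) (ho : IsOrient (sub K V) (m + 1) o)
    (c : (Fin (m + 2) → ℕ) → ℤ) (hc : IsRelCycle K (m + 1) o c)
    (hc0 : ∀ t : Fin (m + 2) → ℕ, Function.Injective t → Finset.univ.image t ∈ K → c t ≠ 0)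
    (W Γ : Type) [DecidableEq W] [Group Γ] [MulAction Γ W] (π : W → ℕ) (Kt : Set (Finset W))
    (hcov : IsRegCover K W Γ π Kt) (hac : IsAcyclic π Kt) :
    bd (fundCh K V c) = 0 ∧
    ((∀ ε : ℝ, 0 < ε → ∃ b : SChain (Mf K V) (m + 2), l1 (fundCh K V c + bd b) < ε) →
      chiM K V = 0) ∧
    (chiM K V ≠ 0 → ∃ C : ℝ, 0 < C ∧
      ∀ (X : Type) [TopologicalSpace X] (f : C(X, Mf K V)) (lam : ℝ)
        (z : SChain X (m + 1)) (w : SChain (Mf K V) (m + 2)),
        push f z = lam • fundCh K V c + bd w → C * |lam| ≤ l1 z) :=
  mainAll m hm hodd K hK V hV hVK hL hM o ho c hc hc0 W Γ π Kt hcov hac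

end Pool.Agent.Results.MP_8a95ee_gt.ReflectionVanishing
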