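import Pool.Agent.Work.MP_8a95ee_gt.Un.All

/-!
# Gromov's question for nonpositively curved cubulations, with a constant depending on the dimension

Let `X` be a locally finite CAT(0) cube complex, given by its 1-skeleton, a median graph with
vertex set `ℕ` (`IsMedianGraph X`, `LocFin X`); its cubes are the sets of neighbours of a vertex
which pairwise span squares (`link X x`), and `space X` is its geometric realisation.  Assume that
the link of every vertex is a real homology sphere of dimension `m`
(`RA.IsHSphere (link X x) (m + 1)`), that the group `Γ` of automorphisms of `X` acts freely on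
`space X`, and that the finite set `F` contains exactly one vertex of every orbit (`IsDeck X Γ F`).
So `Mfd X Γ`, the quotient of `space X` by `Γ`, is a closed aspherical real homology manifold of
dimension `n = m + 1` with a nonpositively curved cubulation, and all such manifolds arise in this
way.  Assume that it is oriented (`Oriented X Γ (m + 1) o`).

The curvature of a vertex `x` is the sum of `(-1/2) ^ |s|` over all cubes `s` with corner `x`; the
Euler characteristic is the sum of the curvatures of all vertices of the quotient.  Call a vertex
tame (`Tame X m N x`) if it has at most `N` neighbours, or if its link is a simplicial fan in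
`ℝ ^ n` (`IsFan`: there are vectors `P v` such that the open cones spanned by the faces are pairwise
disjoint), for example the boundary of a simplicial polytope.  There is a constant `c > 0`,
depending only on `m` and `N`, such that the l1-norm of the fundamental class (and of every class of
every space `Y` which is mapped to it) is at least `c` times the sum of the absolute values of the
curvatures of all tame vertices of the quotient.

In particular (`N = 0`), if all links are simplicial fans then the absolute value of the Euler
characteristic is at most a constant depending only on the dimension times the simplicial volume;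
if all vertices have at most `N` neighbours then it is at most a constant depending only on `m` and
`N` times the simplicial volume; and if the simplicial volume vanishes then the curvature vanishes
at every vertex and the Euler characteristic is zero.
-/

set_option autoImplicit false

namespace Pool.Agent.Results.MP_8a95ee_gt.UniformCubulations

open MP8a95ee MP8a95ee.Npc
open scoped Classical in
theorem result (m N : ℕ) : ∃ c : ℝ, 0 < c ∧
    ∀ (X : SimpleGraph ℕ) (_ : IsMedianGraph X) (_ : LocFin X)
      (_ : ∀ x, RA.IsHSphere (link X x) (m + 1))
      (Γ : Subgroup (Equiv.Perm ℕ)) (F : Finset ℕ) (_ : IsDeck X Γ F)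
      (o : ℕ → (Fin (m + 1) → ℕ) → ℤ) (_ : Oriented X Γ (m + 1) o),
    bd (fundCycle X Γ F o) = 0 ∧
    (eulerChar X Γ F : ℝ) = ∑ x ∈ F, ∑ s ∈ link X x, (-1 / 2 : ℝ) ^ s.card ∧
    (∀ (Y : Type) [TopologicalSpace Y] (f : C(Y, Mfd X Γ)) (lam : ℝ)
      (z : SChain Y (m + 1)) (w : SChain (Mfd X Γ) (m + 2)),
      push f z = lam • fundCycle X Γ F o + bd w →
      c * |lam| * ∑ x ∈ F.filter (Tame X m N), |∑ s ∈ link X x, (-1 / 2 : ℝ) ^ s.card| ≤ l1 z) ∧
    ((∀ ε : ℝ, 0 < ε → ∃ b : SChain (Mfd X Γ) (m + 2), l1 (fundCycle X Γ F o + bd b) < ε) →
      (∀ x, ∑ s ∈ link X x, (-1 / 2 : ℝ) ^ s.card = 0) ∧ eulerChar X Γ F = 0) := by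
  obtain ⟨c, hc, h⟩ := allDMain m N
  refine ⟨c, hc, ?_⟩
  intro X hX hf hS Γ F hD o ho
  obtain ⟨h1, h2, h3, -⟩ := allMain X hX hf m hS Γ F hD o ho
  refine ⟨h1, ?_, ?_, ?_⟩
  · have h6 := congrArg (fun q : ℚ => (q : ℝ)) h2
    push_cast at h6
    exact h6
  · intro Y _ f lam z w hz
    exact h X hX hf hS Γ F hD o ho Y f lam z w hz
  · intro hv
    refine ⟨fun x => ?_, (h3 hv).2⟩
    have h7 := congrArg (fun q : ℚ => (q : ℝ)) ((h3 hv).1 x)
    push_cast at h7
    exact h7

end Pool.Agent.Results.MP_8a95ee_gt.UniformCubulations
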